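import Pool.Agent.Lib.MP_1a91b9_ntRC.RC3

/-!
# MP_1a91b9_nt (comparison), part 4: the comparison for the tuples of squarefree elements
-/

set_option autoImplicit false
set_option linter.unusedSectionVars false

namespace Pool.Agent.Lib.MP_1a91b9_ntRC

open Finset Pool.Agent.Lib.MP_1a91b9_ntH NumberField

noncomputable section

section Abs

variable {ι : Type} [DecidableEq ι] [PS ι]

theorem Rk_zero {x : ℕ} (hx : 1 ≤ x) : Rk ι 0 x = 1 := by
  unfold Rk
  rw [sum_eq_single ∅]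
  · simp
  · intro A _ hA
    rw [Nat.cast_zero, zero_pow (card_ne_zero.2 (nonempty_iff_ne_empty.2 hA))]
  · intro h
    exact absurd (mem_Sx.2 (by rw [nm_empty]; exact hx)) h

theorem Rk_le_succ (k x : ℕ) : Rk ι k x ≤ Rk ι (k + 1) x := by
  refine sum_le_sum fun A _ => pow_le_pow_left₀ (Nat.cast_nonneg _) ?_ _
  push_cast
  linarith

/-- The sum grows by a bounded factor. -/
theorem Rk_dbl {c C : ℝ} (hc : 0 < c) (hC : 0 < C)
    (h1 : ∀ x : ℕ, c * x ≤ ((Sx ι x).card : ℝ)) (h2 : ∀ x : ℕ, ((Sx ι x).card : ℝ) ≤ C * x)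
    (h3 : Summable fun q : ι => 1 / (PS.N q : ℝ) ^ 2) (s : ℕ) (hs : 1 ≤ s) (k : ℕ) :
    ∃ M : ℝ, 0 < M ∧ ∀ x : ℕ, s ≤ x → Rk ι k x ≤ M * Rk ι k (x / s) := by
  induction k with
  | zero =>
    refine ⟨1, one_pos, fun x hx => ?_⟩
    have hy : 1 ≤ x / s := by
      rw [Nat.le_div_iff_mul_le hs, one_mul]
      exact hx
    rw [Rk_zero (hs.trans hx), Rk_zero hy, mul_one]
  | succ k ih =>
    obtain ⟨M0, hM0, h0⟩ := ih
    obtain ⟨M, hM, hD⟩ := Dk_le_Rk hc hC h1 h2 h3 k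
    have hs0 : (1 : ℝ) ≤ s := by exact_mod_cast hs
    refine ⟨4 * s * C / c * M + 2 * s * C * M0, by positivity, fun x hx => ?_⟩
    obtain ⟨y, hy⟩ : ∃ y, y = x / s := ⟨_, rfl⟩
    have hy1 : 1 ≤ y := by
      rw [hy, Nat.le_div_iff_mul_le hs, one_mul]
      exact hx
    have hyx : y ≤ x := by
      rw [hy]
      exact Nat.div_le_self x s
    have hxy : (x : ℝ) ≤ 2 * s * y := by
      have h4 : x < s * (y + 1) := by
        rw [hy]
        exact Nat.lt_mul_div_succ x hs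
      have h5 : (x : ℝ) ≤ s * (y + 1) := by exact_mod_cast h4.le
      have h6 : (1 : ℝ) ≤ y := by exact_mod_cast hy1
      nlinarith
    rw [← hy]
    refine (Rk_le_Dk k x).trans ?_
    unfold Dk
    rw [← sum_filter_add_sum_filter_not (Sx ι x) (fun d => nm d ≤ y)]
    have h4 : ∑ d ∈ (Sx ι x).filter (fun d => nm d ≤ y), (k : ℝ) ^ d.card *
        ((Sx ι (x / nm d)).card : ℝ) ≤ 4 * s * C / c * (M * Rk ι (k + 1) y) := by
      refine le_trans ?_ (mul_le_mul_of_nonneg_left (hD y) (by positivity))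
      unfold Dk
      rw [mul_sum]
      have e : (Sx ι x).filter (fun d => nm d ≤ y) = Sx ι y := by
        ext d
        rw [mem_filter, mem_Sx, mem_Sx]
        exact ⟨fun h => h.2, fun h => ⟨h.trans hyx, h⟩⟩
      rw [e]
      refine sum_le_sum fun d hd => ?_
      have hd' := mem_Sx.1 hd
      have hn : (0 : ℝ) < nm d := by exact_mod_cast one_le_nm d
      have h6 : 1 ≤ y / nm d := by
        rw [Nat.le_div_iff_mul_le (one_le_nm d), one_mul]
        exact hd'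
      have h7 : y < nm d * (y / nm d + 1) := Nat.lt_mul_div_succ y (one_le_nm d)
      have h8 : (y : ℝ) ≤ nm d * ((y / nm d : ℕ) + 1) := by exact_mod_cast h7.le
      have h9 : (1 : ℝ) ≤ ((y / nm d : ℕ) : ℝ) := by exact_mod_cast h6
      have h10 : (y : ℝ) / nm d ≤ 2 * ((y / nm d : ℕ) : ℝ) := by
        rw [div_le_iff₀ hn]
        nlinarith
      have h11 : ((Sx ι (x / nm d)).card : ℝ) ≤ 4 * s * C / c * ((Sx ι (y / nm d)).card : ℝ) := by
        calc ((Sx ι (x / nm d)).card : ℝ) ≤ C * (x / nm d) :=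
              (h2 _).trans (mul_le_mul_of_nonneg_left Nat.cast_div_le hC.le)
          _ ≤ C * (2 * s * (y / nm d)) := by
              refine mul_le_mul_of_nonneg_left ?_ hC.le
              rw [← mul_div_assoc]
              exact div_le_div_of_nonneg_right hxy hn.le
          _ ≤ C * (2 * s * (2 * ((y / nm d : ℕ) : ℝ))) :=
              mul_le_mul_of_nonneg_left (mul_le_mul_of_nonneg_left h10 (by positivity)) hC.le
          _ = 4 * s * C / c * (c * ((y / nm d : ℕ) : ℝ)) := by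
              field_simp
              ring
          _ ≤ _ := mul_le_mul_of_nonneg_left (h1 _) (by positivity)
      calc (k : ℝ) ^ d.card * ((Sx ι (x / nm d)).card : ℝ) ≤
            (k : ℝ) ^ d.card * (4 * s * C / c * ((Sx ι (y / nm d)).card : ℝ)) :=
            mul_le_mul_of_nonneg_left h11 (by positivity)
        _ = _ := by ring
    have h5 : ∑ d ∈ (Sx ι x).filter (fun d => ¬ nm d ≤ y), (k : ℝ) ^ d.card *
        ((Sx ι (x / nm d)).card : ℝ) ≤ 2 * s * C * (M0 * Rk ι (k + 1) y) := by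
      have h6 : ∀ d ∈ (Sx ι x).filter (fun d => ¬ nm d ≤ y), (k : ℝ) ^ d.card *
          ((Sx ι (x / nm d)).card : ℝ) ≤ (k : ℝ) ^ d.card * (2 * s * C) := by
        intro d hd
        have hd' : y < nm d := not_le.1 (mem_filter.1 hd).2
        have hn : (0 : ℝ) < nm d := by exact_mod_cast one_le_nm d
        have hyn : (y : ℝ) ≤ nm d := by exact_mod_cast hd'.le
        refine mul_le_mul_of_nonneg_left ?_ (by positivity)
        calc ((Sx ι (x / nm d)).card : ℝ) ≤ C * (x / nm d) :=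
              (h2 _).trans (mul_le_mul_of_nonneg_left Nat.cast_div_le hC.le)
          _ ≤ C * (2 * s) := by
              refine mul_le_mul_of_nonneg_left ?_ hC.le
              rw [div_le_iff₀ hn]
              refine hxy.trans ?_
              exact mul_le_mul_of_nonneg_left hyn (by positivity)
          _ = _ := by ring
      refine (sum_le_sum h6).trans ?_
      rw [← sum_mul, mul_comm]
      refine mul_le_mul_of_nonneg_left ?_ (by positivity)
      refine le_trans ?_ ((h0 x hx).trans (mul_le_mul_of_nonneg_left (by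
        rw [← hy]
        exact Rk_le_succ k y) hM0.le))
      unfold Rk
      exact sum_le_sum_of_subset_of_nonneg (filter_subset _ _) fun _ _ _ => by positivity
    calc _ ≤ 4 * s * C / c * (M * Rk ι (k + 1) y) + 2 * s * C * (M0 * Rk ι (k + 1) y) :=
          add_le_add h4 h5
      _ = _ := by ring

end Abs

/-- The sum grows by a bounded factor. -/
theorem Rk_dblK (K : Type) [Field K] [NumberField K] (s : ℕ) (hs : 1 ≤ s) (k : ℕ) :
    ∃ M : ℝ, 0 < M ∧ ∀ x : ℕ, s ≤ x → Rk (PI K) k x ≤ M * Rk (PI K) k (x / s) := by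
  obtain ⟨c, C, hc, hC, h⟩ := Sx_bounds K
  exact Rk_dbl hc hC (fun x => (h x).1) (fun x => (h x).2) (PI_summable K) s hs k

variable {K : Type} [Field K] [NumberField K] [IsPrincipalIdealRing (𝓞 K)]

theorem gS_inj : Function.Injective (gS (K := K)) := by
  intro S T h
  apply idl_inj
  rw [← span_gS, ← span_gS, h]

theorem exists_rep {b : 𝓞 K} (hb : Squarefree b) : ∃ p : (𝓞 K)ˣ × Finset (PI K),
    b = gS p.2 * p.1 ∧ Ideal.span {b} = idl p.2 := by
  obtain ⟨S, hS⟩ := exists_S hb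
  have h1 : Ideal.span {gS S} = Ideal.span {b} := by rw [span_gS, hS]
  obtain ⟨u, hu⟩ := Ideal.span_singleton_eq_span_singleton.1 h1
  exact ⟨(u, S), hu.symm, hS⟩

theorem Tp_eq (n : ℕ) (Z : ℝ) : Tp K n Z = {b | (∀ i, Squarefree (b i)) ∧
    ∃ A : 𝓞 K, A ≠ 0 ∧ ((|Algebra.norm ℤ A| : ℤ) : ℝ) ≤ Z ∧ ∀ i, b i ∣ A} := by
  ext b
  constructor
  · rintro ⟨h1, A, hA, h2⟩
    exact ⟨h1, A, hA.ne_zero, h2⟩
  · rintro ⟨h1, A, hA, h2, h3⟩
    choose S hS using fun i => exists_S (h1 i)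
    exact ⟨h1, Tp_two hS (Tp_one hS hA h2 h3)⟩

theorem mem_TT_floor {n : ℕ} {Z : ℝ} (hZ : 0 ≤ Z) {S : Fin n → Finset (PI K)} :
    S ∈ TT (PI K) n ⌊Z⌋₊ ↔ (nm (univ.biUnion S) : ℝ) ≤ Z := by
  rw [mem_TT, Nat.le_floor_iff hZ]

theorem Tp_emb [Finite (𝓞 K)ˣ] (n : ℕ) {Z : ℝ} (hZ : 0 ≤ Z) :
    ∃ f : Tp K n Z → (Fin n → (𝓞 K)ˣ) × TT (PI K) n ⌊Z⌋₊, Function.Injective f := by
  have h : ∀ b : Tp K n Z, ∃ p : (Fin n → (𝓞 K)ˣ) × TT (PI K) n ⌊Z⌋₊,
      ∀ i, b.1 i = gS (p.2.1 i) * p.1 i := by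
    rintro ⟨b, h1, A, hA, h2, h3⟩
    choose p hp hS using fun i => exists_rep (h1 i)
    refine ⟨⟨fun i => (p i).1, ⟨fun i => (p i).2, (mem_TT_floor hZ).2 ?_⟩⟩, fun i => hp i⟩
    exact Tp_one hS hA.ne_zero h2 h3
  choose f hf using h
  refine ⟨f, fun b b' hb => ?_⟩
  apply Subtype.ext
  funext i
  rw [hf b i, hf b' i, hb]

theorem Tp_finite [Finite (𝓞 K)ˣ] (n : ℕ) (Z : ℝ) : (Tp K n Z).Finite := by
  rcases le_or_gt 0 Z with hZ | hZ
  · obtain ⟨f, hf⟩ := Tp_emb (K := K) n hZ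
    have h : Finite (Tp K n Z) := Finite.of_injective f hf
    exact Set.toFinite _
  · have h : Tp K n Z = ∅ := by
      ext b
      simp only [Set.mem_empty_iff_false, iff_false]
      rintro ⟨-, A, -, h2, -⟩
      have h3 : (0 : ℝ) ≤ ((|Algebra.norm ℤ A| : ℤ) : ℝ) := by exact_mod_cast abs_nonneg _
      linarith
    rw [h]
    exact Set.finite_empty

/-- The number of the tuples is between the sums. -/
theorem Tp_card [Finite (𝓞 K)ˣ] (n : ℕ) {Z : ℝ} (hZ : 0 ≤ Z) :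
    Rk (PI K) (2 ^ n - 1) ⌊Z⌋₊ ≤ (Nat.card (Tp K n Z) : ℝ) ∧
    (Nat.card (Tp K n Z) : ℝ) ≤ Nat.card (Fin n → (𝓞 K)ˣ) * Rk (PI K) (2 ^ n - 1) ⌊Z⌋₊ := by
  have hfin : Finite (Tp K n Z) := (Tp_finite n Z).to_subtype
  constructor
  · rw [← card_TT]
    have h1 : Nat.card (TT (PI K) n ⌊Z⌋₊) ≤ Nat.card (Tp K n Z) := by
      refine Nat.card_le_card_of_injective (fun S => ⟨fun i => gS (S.1 i),
        fun i => gS_squarefree _, Tp_two (fun i => span_gS _) ((mem_TT_floor hZ).1 S.2)⟩) ?_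
      intro S T h
      apply Subtype.ext
      funext i
      exact gS_inj (congrFun (Subtype.ext_iff.1 h) i)
    rw [Nat.card_eq_fintype_card, Fintype.card_coe] at h1
    exact_mod_cast h1
  · rw [← card_TT]
    obtain ⟨f, hf⟩ := Tp_emb (K := K) n hZ
    have h1 := Nat.card_le_card_of_injective f hf
    rw [Nat.card_prod, Nat.card_eq_fintype_card (α := TT (PI K) n ⌊Z⌋₊), Fintype.card_coe] at h1
    exact_mod_cast h1

/-- **The comparison.** -/
theorem r_cmp (K : Type) [Field K] [NumberField K] [IsPrincipalIdealRing (𝓞 K)] [Finite (𝓞 K)ˣ]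
    {n : ℕ} (hn : 0 < n) : ∃ C : ℝ, 0 < C ∧ ∀ Z s : ℝ, 1 ≤ s →
      (Nat.card (Tp K n (Z / s)) : ℝ) ≤ C / s * (Nat.card (Tp K n Z) : ℝ) := by
  have hk : 2 ^ n - 1 = (2 ^ n - 2) + 1 := by
    have : 2 ^ 1 ≤ 2 ^ n := Nat.pow_le_pow_right (by norm_num) hn
    omega
  obtain ⟨M, hM, h⟩ := Rk_cmpK K (2 ^ n - 2)
  rw [← hk] at h
  have hu0 : (0 : ℝ) < Nat.card (Fin n → (𝓞 K)ˣ) := by exact_mod_cast Nat.card_pos
  refine ⟨2 * Nat.card (Fin n → (𝓞 K)ˣ) * M, by positivity, fun Z s hs => ?_⟩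
  have hs0 : 0 < s := by linarith
  rcases lt_or_ge (Z / s) 1 with hZ | hZ
  · have h0 : Tp K n (Z / s) = ∅ := by
      ext b
      simp only [Set.mem_empty_iff_false, iff_false]
      rintro ⟨-, A, hA, h2, -⟩
      have h3 : (1 : ℝ) ≤ ((|Algebra.norm ℤ A| : ℤ) : ℝ) := by
        have h4 : (1 : ℤ) ≤ |Algebra.norm ℤ A| := Int.one_le_abs (by
          intro h5
          have h6 : Ideal.absNorm (Ideal.span {A}) = 0 := by
            rw [Ideal.absNorm_span_singleton, h5, Int.natAbs_zero]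
          rw [Ideal.absNorm_eq_zero_iff, Ideal.span_singleton_eq_bot] at h6
          exact hA.ne_zero h6)
        exact_mod_cast h4
      linarith
    rw [h0, Nat.card_of_isEmpty, Nat.cast_zero]
    positivity
  have hZ0 : 1 ≤ Z := by
    rw [le_div_iff₀ hs0] at hZ
    linarith
  obtain ⟨y, hy⟩ : ∃ y, y = ⌊Z / s⌋₊ := ⟨_, rfl⟩
  obtain ⟨x, hx⟩ : ∃ x, x = ⌊Z⌋₊ := ⟨_, rfl⟩
  have h1 := (Tp_card (K := K) n (Z := Z) (by linarith)).1
  have h2 := (Tp_card (K := K) n (Z := Z / s) (by linarith)).2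
  rw [← hx] at h1
  rw [← hy] at h2
  have hyx : y ≤ x := by
    rw [hx, hy]
    exact Nat.floor_le_floor (div_le_self (by linarith) hs)
  have h3 := h x y hyx
  have h4 : (y : ℝ) ≤ Z / s := by
    rw [hy]
    exact Nat.floor_le (by linarith)
  have h5 : Z ≤ 2 * x := by
    have h6 : Z < x + 1 := by
      rw [hx]
      exact Nat.lt_floor_add_one Z
    have h7 : 1 ≤ x := by
      rw [hx]
      exact Nat.le_floor (by exact_mod_cast hZ0)
    have h8 : (1 : ℝ) ≤ x := by exact_mod_cast h7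
    linarith
  have hx0 : (0 : ℝ) < x := by linarith
  have hR := Rk_nonneg (ι := PI K) (2 ^ n - 1) x
  have h6 : Rk (PI K) (2 ^ n - 1) y ≤ 2 * M / s * Rk (PI K) (2 ^ n - 1) x := by
    refine le_of_mul_le_mul_left ?_ hx0
    refine h3.trans ?_
    have h7 : (y : ℝ) ≤ 2 * x / s := h4.trans (div_le_div_of_nonneg_right h5 hs0.le)
    calc M * y * Rk (PI K) (2 ^ n - 1) x ≤ M * (2 * x / s) * Rk (PI K) (2 ^ n - 1) x :=
          mul_le_mul_of_nonneg_right (mul_le_mul_of_nonneg_left h7 hM.le) hR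
      _ = _ := by ring
  calc (Nat.card (Tp K n (Z / s)) : ℝ) ≤
        Nat.card (Fin n → (𝓞 K)ˣ) * (2 * M / s * Rk (PI K) (2 ^ n - 1) x) :=
        h2.trans (mul_le_mul_of_nonneg_left h6 hu0.le)
    _ = 2 * Nat.card (Fin n → (𝓞 K)ˣ) * M / s * Rk (PI K) (2 ^ n - 1) x := by ring
    _ ≤ _ := mul_le_mul_of_nonneg_left h1 (by positivity)

/-- **The growth.** -/
theorem r_dbl (K : Type) [Field K] [NumberField K] [IsPrincipalIdealRing (𝓞 K)] [Finite (𝓞 K)ˣ]
    (n : ℕ) (s : ℝ) (hs : 1 ≤ s) : ∃ C : ℝ, 0 < C ∧ ∀ᶠ Z : ℝ in Filter.atTop,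
      (Nat.card (Tp K n Z) : ℝ) ≤ C * (Nat.card (Tp K n (Z / s)) : ℝ) := by
  obtain ⟨m, hm⟩ : ∃ m, m = ⌈s⌉₊ := ⟨_, rfl⟩
  have hsm : s ≤ m := by
    rw [hm]
    exact Nat.le_ceil s
  have hm1 : 1 ≤ m := by
    have : (1 : ℝ) ≤ m := hs.trans hsm
    exact_mod_cast this
  obtain ⟨M, hM, h⟩ := Rk_dblK K m hm1 (2 ^ n - 1)
  have hu0 : (0 : ℝ) < Nat.card (Fin n → (𝓞 K)ˣ) := by exact_mod_cast Nat.card_pos
  refine ⟨Nat.card (Fin n → (𝓞 K)ˣ) * M, by positivity, ?_⟩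
  filter_upwards [Filter.eventually_ge_atTop (m : ℝ)] with Z hZ
  have hs0 : 0 < s := by linarith
  have hZ0 : 0 ≤ Z := le_trans (Nat.cast_nonneg _) hZ
  have h1 := (Tp_card (K := K) n (Z := Z) hZ0).2
  have h2 := (Tp_card (K := K) n (Z := Z / s) (by positivity)).1
  have h3 : m ≤ ⌊Z⌋₊ := Nat.le_floor hZ
  have h4 := h _ h3
  have h5 : ⌊Z⌋₊ / m ≤ ⌊Z / s⌋₊ := by
    refine Nat.le_floor ?_
    refine Nat.cast_div_le.trans ?_
    exact div_le_div₀ hZ0 (Nat.floor_le hZ0) hs0 hsm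
  have h6 := Rk_mono (ι := PI K) (2 ^ n - 1) h5
  calc (Nat.card (Tp K n Z) : ℝ) ≤ Nat.card (Fin n → (𝓞 K)ˣ) * Rk (PI K) (2 ^ n - 1) ⌊Z⌋₊ := h1
    _ ≤ Nat.card (Fin n → (𝓞 K)ˣ) * (M * (Nat.card (Tp K n (Z / s)) : ℝ)) :=
        mul_le_mul_of_nonneg_left (h4.trans (mul_le_mul_of_nonneg_left (h6.trans h2) hM.le)) hu0.le
    _ = _ := by ring

end

end Pool.Agent.Lib.MP_1a91b9_ntRC
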