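import Pool.Agent.Lib.MP_1a91b9_ntH.D.Defs
import Mathlib.Analysis.SpecialFunctions.Log.Summable

/-!
# MP_1a91b9_nt (comparison), part 1: the sums of `k ^ |A|` over squarefree integers

`R(x)` is the sum of `(k + 1) ^ |A|` over the squarefree `A` of norm at most `x`. Then
`R(y) / y ≤ C R(x) / x` for `1 ≤ y ≤ x`.
-/

set_option autoImplicit false

namespace Pool.Agent.Lib.MP_1a91b9_ntRC

open Finset Pool.Agent.Lib.MP_1a91b9_ntH

noncomputable section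

theorem sum_le_inj {α β : Type} [DecidableEq β] (s : Finset α) (t : Finset β) (f : α → ℝ)
    (g : β → ℝ) (e : α → β) (he : ∀ a ∈ s, e a ∈ t)
    (hi : ∀ a ∈ s, ∀ b ∈ s, e a = e b → a = b) (hfg : ∀ a ∈ s, f a ≤ g (e a))
    (hg : ∀ b ∈ t, 0 ≤ g b) : ∑ a ∈ s, f a ≤ ∑ b ∈ t, g b := by
  refine (sum_le_sum hfg).trans ?_
  have h1 : ∑ a ∈ s, g (e a) = ∑ b ∈ s.image e, g b := by
    rw [sum_image]
    intro a ha b hb hab
    exact hi a ha b hb hab
  rw [h1]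
  refine sum_le_sum_of_subset_of_nonneg (fun b hb => ?_) fun b hb _ => hg b hb
  obtain ⟨a, ha, rfl⟩ := mem_image.1 hb
  exact he a ha

variable {ι : Type} [DecidableEq ι] [PS ι]

/-- The sum of `k ^ |A|` over the squarefree `A` of norm at most `x`. -/
def Rk (ι : Type) [DecidableEq ι] [PS ι] (k : ℕ) (x : ℕ) : ℝ := ∑ A ∈ Sx ι x, (k : ℝ) ^ A.card

/-- The sum of `k ^ |d|` over the pairs `d`, `a` with product of the norms at most `x`. -/
def Dk (ι : Type) [DecidableEq ι] [PS ι] (k : ℕ) (x : ℕ) : ℝ :=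
  ∑ d ∈ Sx ι x, (k : ℝ) ^ d.card * ((Sx ι (x / nm d)).card : ℝ)

theorem Sx_zero : Sx ι 0 = ∅ := by
  refine eq_empty_iff_forall_notMem.2 fun S hS => ?_
  have h1 := mem_Sx.1 hS
  have h2 := one_le_nm S
  omega

theorem Rk_nonneg (k x : ℕ) : 0 ≤ Rk ι k x := sum_nonneg fun _ _ => by positivity

theorem Dk_nonneg (k x : ℕ) : 0 ≤ Dk ι k x := sum_nonneg fun _ _ => by positivity

theorem Rk_mono (k : ℕ) {x y : ℕ} (h : x ≤ y) : Rk ι k x ≤ Rk ι k y := by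
  refine sum_le_sum_of_subset_of_nonneg (fun S hS => mem_Sx.2 ((mem_Sx.1 hS).trans h))
    fun _ _ _ => by positivity

omit [DecidableEq ι] [PS ι] in
/-- The binomial formula for `(k + 1) ^ |A|`. -/
theorem pow_succ_card (k : ℕ) (A : Finset ι) :
    ((k + 1 : ℕ) : ℝ) ^ A.card = ∑ d ∈ A.powerset, (k : ℝ) ^ d.card := by
  have h := Finset.sum_pow_mul_eq_add_pow (k : ℝ) 1 A
  push_cast
  rw [← h]
  refine sum_congr rfl fun d _ => ?_
  rw [one_pow, mul_one]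

/-- Slicing. -/
theorem Dk_slice {c C : ℝ} (hc : 0 < c) (hC : 0 < C)
    (h1 : ∀ x : ℕ, c * x ≤ ((Sx ι x).card : ℝ)) (h2 : ∀ x : ℕ, ((Sx ι x).card : ℝ) ≤ C * x)
    (k : ℕ) {x y : ℕ} (hyx : y ≤ x) : x * Dk ι k y ≤ 2 * C / c * y * Dk ι k x := by
  unfold Dk
  rw [mul_sum, mul_sum]
  have h3 : ∑ d ∈ Sx ι y, 2 * C / c * y * ((k : ℝ) ^ d.card * ((Sx ι (x / nm d)).card : ℝ)) ≤
      ∑ d ∈ Sx ι x, 2 * C / c * y * ((k : ℝ) ^ d.card * ((Sx ι (x / nm d)).card : ℝ)) :=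
    sum_le_sum_of_subset_of_nonneg (fun S hS => mem_Sx.2 ((mem_Sx.1 hS).trans hyx))
      fun _ _ _ => by positivity
  refine le_trans (sum_le_sum fun d hd => ?_) h3
  have hd' := mem_Sx.1 hd
  have hn : (0 : ℝ) < nm d := by exact_mod_cast one_le_nm d
  have h4 : ((Sx ι (y / nm d)).card : ℝ) ≤ C * (y / nm d) :=
    (h2 _).trans (mul_le_mul_of_nonneg_left Nat.cast_div_le hC.le)
  have h5 : (x : ℝ) / nm d ≤ 2 * ((x / nm d : ℕ) : ℝ) := by
    have h6 : 1 ≤ x / nm d := by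
      rw [Nat.le_div_iff_mul_le (one_le_nm d), one_mul]
      exact hd'.trans hyx
    have h7 : x < nm d * (x / nm d + 1) := Nat.lt_mul_div_succ x (one_le_nm d)
    have h8 : (x : ℝ) ≤ nm d * ((x / nm d : ℕ) + 1) := by exact_mod_cast h7.le
    have h9 : (1 : ℝ) ≤ ((x / nm d : ℕ) : ℝ) := by exact_mod_cast h6
    rw [div_le_iff₀ hn]
    nlinarith
  have h6 : c / 2 * (x / nm d) ≤ ((Sx ι (x / nm d)).card : ℝ) := by
    refine le_trans ?_ (h1 _)
    nlinarith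
  have h7 : (x : ℝ) * ((Sx ι (y / nm d)).card : ℝ) ≤
      2 * C / c * y * ((Sx ι (x / nm d)).card : ℝ) := by
    calc (x : ℝ) * ((Sx ι (y / nm d)).card : ℝ) ≤ x * (C * (y / nm d)) :=
          mul_le_mul_of_nonneg_left h4 (Nat.cast_nonneg _)
      _ = 2 * C / c * y * (c / 2 * (x / nm d)) := by
          field_simp
      _ ≤ _ := mul_le_mul_of_nonneg_left h6 (by positivity)
  calc (x : ℝ) * ((k : ℝ) ^ d.card * ((Sx ι (y / nm d)).card : ℝ)) =
        (k : ℝ) ^ d.card * (x * ((Sx ι (y / nm d)).card : ℝ)) := by ring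
    _ ≤ (k : ℝ) ^ d.card * (2 * C / c * y * ((Sx ι (x / nm d)).card : ℝ)) :=
        mul_le_mul_of_nonneg_left h7 (by positivity)
    _ = _ := by ring

theorem Rk_le_Dk (k x : ℕ) : Rk ι (k + 1) x ≤ Dk ι k x := by
  have e1 : Rk ι (k + 1) x =
      ∑ p ∈ (Sx ι x).sigma fun A => A.powerset, (k : ℝ) ^ p.2.card := by
    rw [sum_sigma]
    exact sum_congr rfl fun A _ => pow_succ_card k A
  have e2 : Dk ι k x =
      ∑ p ∈ (Sx ι x).sigma fun d => Sx ι (x / nm d), (k : ℝ) ^ p.1.card := by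
    rw [sum_sigma]
    refine sum_congr rfl fun d _ => ?_
    simp only [sum_const, nsmul_eq_mul]
    ring
  rw [e1, e2]
  refine sum_le_inj _ _ _ _ (fun p => ⟨p.2, p.1 \ p.2⟩) ?_ ?_ ?_ ?_
  · rintro ⟨A, d⟩ h
    obtain ⟨hA, hd⟩ := mem_sigma.1 h
    have hd' : d ⊆ A := mem_powerset.1 hd
    have hA' : nm A ≤ x := mem_Sx.1 hA
    have e : nm A = nm (A \ d) * nm d := by
      rw [← nm_union sdiff_disjoint, sdiff_union_of_subset hd']
    refine mem_sigma.2 ⟨mem_Sx.2 ?_, mem_Sx.2 ?_⟩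
    · exact (Nat.le_mul_of_pos_left _ (one_le_nm _)).trans (e ▸ hA')
    · rw [Nat.le_div_iff_mul_le (one_le_nm d)]
      exact e ▸ hA'
  · rintro ⟨A, d⟩ h ⟨A', d'⟩ h' hh
    have hd : d ⊆ A := mem_powerset.1 (mem_sigma.1 h).2
    have hd' : d' ⊆ A' := mem_powerset.1 (mem_sigma.1 h').2
    simp only [Sigma.mk.injEq, heq_eq_eq] at hh
    obtain ⟨rfl, h2⟩ := hh
    have : A = A' := by
      rw [← sdiff_union_of_subset hd, h2, sdiff_union_of_subset hd']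
    rw [this]
  · intro _ _
    exact le_rfl
  · intro _ _
    positivity

theorem Dk_le_sum (k x : ℕ) :
    Dk ι k x ≤ ∑ G ∈ Sx ι x, (k : ℝ) ^ G.card * Rk ι (k + 1) (x / nm G ^ 2) := by
  have e1 : ∑ G ∈ Sx ι x, (k : ℝ) ^ G.card * Rk ι (k + 1) (x / nm G ^ 2) =
      ∑ p ∈ (Sx ι x).sigma fun G => (Sx ι (x / nm G ^ 2)).sigma fun A => A.powerset,
        (k : ℝ) ^ p.1.card * (k : ℝ) ^ p.2.2.card := by
    rw [sum_sigma]
    refine sum_congr rfl fun G _ => ?_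
    show (k : ℝ) ^ G.card * Rk ι (k + 1) (x / nm G ^ 2) =
      ∑ s ∈ (Sx ι (x / nm G ^ 2)).sigma fun A => A.powerset, (k : ℝ) ^ G.card * (k : ℝ) ^ s.2.card
    rw [← mul_sum, sum_sigma]
    congr 1
    exact sum_congr rfl fun A _ => pow_succ_card k A
  have e2 : Dk ι k x =
      ∑ p ∈ (Sx ι x).sigma fun d => Sx ι (x / nm d), (k : ℝ) ^ p.1.card := by
    rw [sum_sigma]
    refine sum_congr rfl fun d _ => ?_
    simp only [sum_const, nsmul_eq_mul]
    ring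
  rw [e1, e2]
  refine sum_le_inj _ _ _ _
    (fun p => ⟨p.1 ∩ p.2, ⟨(p.1 \ p.2) ∪ (p.2 \ p.1), p.1 \ p.2⟩⟩) ?_ ?_ ?_ ?_
  · rintro ⟨d, a⟩ h
    obtain ⟨hd, ha⟩ := mem_sigma.1 h
    have hd' : nm d ≤ x := mem_Sx.1 hd
    have ha' : nm a * nm d ≤ x := (Nat.le_div_iff_mul_le (one_le_nm d)).1 (mem_Sx.1 ha)
    have ed : nm d = nm (d \ a) * nm (d ∩ a) := by
      rw [← nm_union (disjoint_sdiff_inter d a), sdiff_union_inter]
    have ea : nm a = nm (a \ d) * nm (d ∩ a) := by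
      rw [inter_comm, ← nm_union (disjoint_sdiff_inter a d), sdiff_union_inter]
    have eu : nm ((d \ a) ∪ (a \ d)) = nm (d \ a) * nm (a \ d) := by
      refine nm_union ?_
      rw [disjoint_left]
      intro q h1 h2
      exact (mem_sdiff.1 h1).2 (mem_sdiff.1 h2).1
    refine mem_sigma.2 ⟨mem_Sx.2 ?_, mem_sigma.2 ⟨mem_Sx.2 ?_, mem_powerset.2 ?_⟩⟩
    · exact (Nat.le_mul_of_pos_left _ (one_le_nm _)).trans (ed ▸ hd')
    · show nm ((d \ a) ∪ (a \ d)) ≤ x / nm (d ∩ a) ^ 2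
      rw [Nat.le_div_iff_mul_le (pow_pos (one_le_nm _) 2), eu]
      refine le_trans (le_of_eq ?_) ha'
      rw [ea, ed]
      ring
    · exact subset_union_left
  · rintro ⟨d, a⟩ h ⟨d', a'⟩ h' hh
    simp only [Sigma.mk.injEq, heq_eq_eq] at hh
    obtain ⟨h1, h2, h3⟩ := hh
    have hd : d = d' := by
      rw [← sdiff_union_inter d a, h3, h1, sdiff_union_inter]
    have h4 : a \ d = a' \ d' := by
      ext q
      have h5 := Finset.ext_iff.1 h2 q
      have h6 := Finset.ext_iff.1 h3 q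
      simp only [mem_union, mem_sdiff] at h5 h6 ⊢
      tauto
    have ha : a = a' := by
      rw [← sdiff_union_inter a d, h4, inter_comm, h1, inter_comm, sdiff_union_inter]
    rw [hd, ha]
  · rintro ⟨d, a⟩ h
    show (k : ℝ) ^ d.card ≤ (k : ℝ) ^ (d ∩ a).card * (k : ℝ) ^ (d \ a).card
    rw [← pow_add, add_comm, ← card_union_of_disjoint (disjoint_sdiff_inter d a),
      sdiff_union_inter]
  · intro _ _
    positivity

theorem Dk_le_Rk {c C : ℝ} (hc : 0 < c) (hC : 0 < C)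
    (h1 : ∀ x : ℕ, c * x ≤ ((Sx ι x).card : ℝ)) (h2 : ∀ x : ℕ, ((Sx ι x).card : ℝ) ≤ C * x)
    (h3 : Summable fun q : ι => 1 / (PS.N q : ℝ) ^ 2) (k : ℕ) :
    ∃ M : ℝ, 0 < M ∧ ∀ x : ℕ, Dk ι k x ≤ M * Rk ι (k + 1) x := by
  have hB : 0 < 2 * C / c := by positivity
  have hF : Summable fun G : Finset ι => ∏ q ∈ G, (k : ℝ) / (PS.N q : ℝ) ^ 2 := by
    refine summable_finsetProd_of_summable_nonneg (fun q => by positivity) ?_
    refine (h3.mul_left (k : ℝ)).congr fun q => ?_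
    ring
  have hFe : ∀ G : Finset ι, ∏ q ∈ G, (k : ℝ) / (PS.N q : ℝ) ^ 2 =
      (k : ℝ) ^ G.card / (nm G : ℝ) ^ 2 := by
    intro G
    rw [prod_div_distrib, prod_const, prod_pow]
    unfold nm
    push_cast
    rfl
  obtain ⟨T, hT⟩ := summable_iff_vanishing_norm.1 hF (1 / (2 * (2 * C / c))) (by positivity)
  refine ⟨2 * (∑ G ∈ T, (k : ℝ) ^ G.card + 1), by positivity, fun x => ?_⟩
  have hD := Dk_le_sum (ι := ι) k x
  rw [← sum_filter_add_sum_filter_not (Sx ι x) (fun G => G ∈ T)] at hD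
  have h4 : ∑ G ∈ (Sx ι x).filter (fun G => G ∈ T), (k : ℝ) ^ G.card *
      Rk ι (k + 1) (x / nm G ^ 2) ≤ (∑ G ∈ T, (k : ℝ) ^ G.card) * Rk ι (k + 1) x := by
    rw [sum_mul]
    refine le_trans (sum_le_sum fun G _ => mul_le_mul_of_nonneg_left
      (Rk_mono (k + 1) (Nat.div_le_self x _)) (by positivity)) ?_
    refine sum_le_sum_of_subset_of_nonneg (fun G hG => (mem_filter.1 hG).2) fun G _ _ => ?_
    exact mul_nonneg (by positivity) (Rk_nonneg _ _)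
  have h5 : ∑ G ∈ (Sx ι x).filter (fun G => ¬ G ∈ T), (k : ℝ) ^ G.card *
      Rk ι (k + 1) (x / nm G ^ 2) ≤ 1 / 2 * Dk ι k x := by
    rcases Nat.eq_zero_or_pos x with rfl | hx
    · rw [Sx_zero]
      simp only [filter_empty, sum_empty]
      exact mul_nonneg (by norm_num) (Dk_nonneg _ _)
    have hx' : (0 : ℝ) < x := by exact_mod_cast hx
    have h6 : ∀ G ∈ (Sx ι x).filter (fun G => ¬ G ∈ T), (k : ℝ) ^ G.card *
        Rk ι (k + 1) (x / nm G ^ 2) ≤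
        (∏ q ∈ G, (k : ℝ) / (PS.N q : ℝ) ^ 2) * (2 * C / c * Dk ι k x) := by
      intro G _
      have hn : (0 : ℝ) < nm G := by exact_mod_cast one_le_nm G
      have h7 := Dk_slice hc hC h1 h2 k (Nat.div_le_self x (nm G ^ 2))
      have h8 : ((x / nm G ^ 2 : ℕ) : ℝ) ≤ x / (nm G : ℝ) ^ 2 := by
        refine Nat.cast_div_le.trans (le_of_eq ?_)
        push_cast
        rfl
      have h9 : (x : ℝ) * Dk ι k (x / nm G ^ 2) ≤
          x * (2 * C / c * Dk ι k x / (nm G : ℝ) ^ 2) := by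
        refine h7.trans ?_
        calc 2 * C / c * ((x / nm G ^ 2 : ℕ) : ℝ) * Dk ι k x ≤
              2 * C / c * (x / (nm G : ℝ) ^ 2) * Dk ι k x :=
              mul_le_mul_of_nonneg_right (mul_le_mul_of_nonneg_left h8 hB.le) (Dk_nonneg _ _)
          _ = _ := by ring
      have h10 := le_of_mul_le_mul_left h9 hx'
      rw [hFe]
      calc (k : ℝ) ^ G.card * Rk ι (k + 1) (x / nm G ^ 2) ≤
            (k : ℝ) ^ G.card * (2 * C / c * Dk ι k x / (nm G : ℝ) ^ 2) :=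
            mul_le_mul_of_nonneg_left ((Rk_le_Dk _ _).trans h10) (by positivity)
        _ = _ := by ring
    refine (sum_le_sum h6).trans ?_
    rw [← sum_mul]
    have h11 := hT ((Sx ι x).filter (fun G => ¬ G ∈ T)) (by
      rw [disjoint_left]
      intro G hG
      exact (mem_filter.1 hG).2)
    have h12 := (le_abs_self _).trans (le_of_lt h11)
    calc _ ≤ (1 / (2 * (2 * C / c))) * (2 * C / c * Dk ι k x) :=
          mul_le_mul_of_nonneg_right h12 (mul_nonneg hB.le (Dk_nonneg _ _))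
      _ = _ := by
          field_simp
  have h13 := Rk_nonneg (ι := ι) (k + 1) x
  nlinarith

/-- **The comparison.** -/
theorem Rk_cmp {c C : ℝ} (hc : 0 < c) (hC : 0 < C)
    (h1 : ∀ x : ℕ, c * x ≤ ((Sx ι x).card : ℝ)) (h2 : ∀ x : ℕ, ((Sx ι x).card : ℝ) ≤ C * x)
    (h3 : Summable fun q : ι => 1 / (PS.N q : ℝ) ^ 2) (k : ℕ) :
    ∃ M : ℝ, 0 < M ∧ ∀ x y : ℕ, y ≤ x → x * Rk ι (k + 1) y ≤ M * y * Rk ι (k + 1) x := by
  obtain ⟨M, hM, h⟩ := Dk_le_Rk hc hC h1 h2 h3 k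
  refine ⟨2 * C / c * M, by positivity, fun x y hyx => ?_⟩
  calc (x : ℝ) * Rk ι (k + 1) y ≤ x * Dk ι k y :=
        mul_le_mul_of_nonneg_left (Rk_le_Dk k y) (Nat.cast_nonneg _)
    _ ≤ 2 * C / c * y * Dk ι k x := Dk_slice hc hC h1 h2 k hyx
    _ ≤ 2 * C / c * y * (M * Rk ι (k + 1) x) :=
        mul_le_mul_of_nonneg_left (h x) (by positivity)
    _ = _ := by ring

end

end Pool.Agent.Lib.MP_1a91b9_ntRC
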