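import Pool.Agent.Lib.MP_1a91b9_ntRC.RC1
import Mathlib.NumberTheory.NumberField.Ideal.Asymptotics

/-!
# MP_1a91b9_nt (comparison), part 2: the prime ideals of a number field

The number of the squarefree ideals of norm at most `x` is between `c x` and `C x`.
-/

set_option autoImplicit false
set_option linter.unusedSectionVars false

namespace Pool.Agent.Lib.MP_1a91b9_ntRC

open Finset Pool.Agent.Lib.MP_1a91b9_ntH NumberField

noncomputable section

/-- A set with at most `C x` elements of norm at most `x` has a finite sum of `1 / N ^ 2`. -/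
theorem summ_dyadic {α : Type} (N : α → ℕ) (hN : ∀ a, 1 ≤ N a) {C : ℝ} (hC : 0 ≤ C)
    (h : ∀ (T : Finset α) (x : ℕ), (∀ a ∈ T, N a ≤ x) → (T.card : ℝ) ≤ C * x) :
    Summable fun a => 1 / (N a : ℝ) ^ 2 := by
  classical
  refine summable_of_sum_le (c := 4 * C) (fun a => by positivity) fun T => ?_
  obtain ⟨J, hJ⟩ : ∃ J, ∀ a ∈ T, Nat.log 2 (N a) < J :=
    ⟨T.sup (fun a => Nat.log 2 (N a)) + 1, fun a ha =>
      Nat.lt_succ_of_le (Finset.le_sup (f := fun a => Nat.log 2 (N a)) ha)⟩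
  have h1 : ∀ a ∈ T, 1 / (N a : ℝ) ^ 2 ≤ (1 / 4 : ℝ) ^ Nat.log 2 (N a) := by
    intro a _
    have h2 : 2 ^ Nat.log 2 (N a) ≤ N a := Nat.pow_log_le_self 2 (by have := hN a; omega)
    have h3 : (2 : ℝ) ^ Nat.log 2 (N a) ≤ N a := by exact_mod_cast h2
    have h4 : (4 : ℝ) ^ Nat.log 2 (N a) ≤ (N a : ℝ) ^ 2 := by
      calc (4 : ℝ) ^ Nat.log 2 (N a) = ((2 : ℝ) ^ Nat.log 2 (N a)) ^ 2 := by
            rw [← pow_mul, mul_comm, pow_mul]
            norm_num
        _ ≤ _ := pow_le_pow_left₀ (by positivity) h3 2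
    rw [one_div_pow]
    exact one_div_le_one_div_of_le (by positivity) h4
  refine (sum_le_sum h1).trans ?_
  rw [← sum_fiberwise_of_maps_to (s := T) (t := range J) (g := fun a => Nat.log 2 (N a))
    (fun a ha => mem_range.2 (hJ a ha))]
  have h5 : ∀ j ∈ range J, ∑ a ∈ T.filter (fun a => Nat.log 2 (N a) = j),
      (1 / 4 : ℝ) ^ Nat.log 2 (N a) ≤ 2 * C * (1 / 2) ^ j := by
    intro j _
    have h6 : ((T.filter (fun a => Nat.log 2 (N a) = j)).card : ℝ) ≤ C * 2 ^ (j + 1) := by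
      have h7 := h (T.filter (fun a => Nat.log 2 (N a) = j)) (2 ^ (j + 1)) (fun a ha => by
        have h8 := (mem_filter.1 ha).2
        rw [← h8]
        exact (Nat.lt_pow_succ_log_self (by norm_num) (N a)).le)
      push_cast at h7
      exact h7
    have h9 : ∑ a ∈ T.filter (fun a => Nat.log 2 (N a) = j), (1 / 4 : ℝ) ^ Nat.log 2 (N a) =
        ((T.filter (fun a => Nat.log 2 (N a) = j)).card : ℝ) * (1 / 4) ^ j := by
      rw [← nsmul_eq_mul, ← sum_const]
      exact sum_congr rfl fun a ha => by rw [(mem_filter.1 ha).2]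
    rw [h9]
    refine (mul_le_mul_of_nonneg_right h6 (by positivity)).trans (le_of_eq ?_)
    have h10 : (2 : ℝ) ^ j * (1 / 4) ^ j = (1 / 2) ^ j := by
      rw [← mul_pow]
      norm_num
    rw [← h10]
    ring
  refine (sum_le_sum h5).trans ?_
  rw [← mul_sum]
  have h11 := sum_geometric_two_le J
  nlinarith

variable (K : Type) [Field K] [NumberField K]

/-- The nonzero prime ideals. -/
abbrev PI : Type := {p : Ideal (𝓞 K) // Prime p}

instance decPI : DecidableEq (PI K) := Classical.decEq _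

instance psI : PS (PI K) where
  N p := Ideal.absNorm p.1
  two_le p := by
    have h0 : Ideal.absNorm p.1 ≠ 0 := Ideal.absNorm_ne_zero_iff_mem_nonZeroDivisors.2
      (mem_nonZeroDivisors_iff_ne_zero.2 p.2.ne_zero)
    have h1 : Ideal.absNorm p.1 ≠ 1 := by
      intro h
      exact p.2.not_isUnit (by
        rw [Ideal.isUnit_iff]
        exact Ideal.absNorm_eq_one_iff.1 h)
    omega
  fin x := (Ideal.finite_setOfPred_absNorm_le x).preimage Subtype.val_injective.injOn

theorem psI_N (p : PI K) : PS.N p = Ideal.absNorm p.1 := rfl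

variable {K}

/-- The ideal of a finite set of primes. -/
def idl (S : Finset (PI K)) : Ideal (𝓞 K) := ∏ p ∈ S, p.1

theorem idl_ne_zero (S : Finset (PI K)) : idl S ≠ 0 := prod_ne_zero_iff.2 fun p _ => p.2.ne_zero

theorem absNorm_idl (S : Finset (PI K)) : Ideal.absNorm (idl S) = nm S := by
  unfold idl nm
  rw [map_prod]
  rfl

theorem dvd_idl {p : PI K} {S : Finset (PI K)} : p.1 ∣ idl S ↔ p ∈ S := by
  unfold idl
  constructor
  · intro h
    obtain ⟨q, hq, h1⟩ := (Prime.dvd_finsetProd_iff p.2 _).1 h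
    have h2 : p.1 = q.1 := associated_iff_eq.1 ((p.2.dvd_prime_iff_associated q.2).1 h1)
    rwa [Subtype.ext h2]
  · exact fun h => dvd_prod_of_mem _ h

theorem idl_inj : Function.Injective (idl (K := K)) := by
  intro S T h
  ext p
  rw [← dvd_idl, ← dvd_idl, h]

variable (K)

/-- The nonzero ideals of norm at most `x`. -/
def Jx (x : ℕ) : Finset (nonZeroDivisors (Ideal (𝓞 K))) :=
  (Ideal.finite_setOfPred_absNorm_le₀ (S := 𝓞 K) x).toFinset

variable {K}

theorem mem_Jx {x : ℕ} {I : nonZeroDivisors (Ideal (𝓞 K))} :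
    I ∈ Jx K x ↔ Ideal.absNorm I.1 ≤ x := by
  unfold Jx
  rw [Set.Finite.mem_toFinset]
  rfl

theorem one_le_absNorm (I : nonZeroDivisors (Ideal (𝓞 K))) : 1 ≤ Ideal.absNorm I.1 :=
  Nat.one_le_iff_ne_zero.2 (Ideal.absNorm_ne_zero_iff_mem_nonZeroDivisors.2 I.2)

variable (K)

theorem Jx_bounds : ∃ c C : ℝ, 0 < c ∧ 0 < C ∧ ∀ x : ℕ,
    c * x ≤ ((Jx K x).card : ℝ) ∧ ((Jx K x).card : ℝ) ≤ C * x := by
  have hcard : ∀ x : ℕ, Nat.card {I : nonZeroDivisors (Ideal (𝓞 K)) //
      (Ideal.absNorm I.1 : ℝ) ≤ (x : ℝ)} = (Jx K x).card := by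
    intro x
    refine Nat.subtype_card _ fun I => ?_
    rw [mem_Jx, Nat.cast_le]
  have hlim := (NumberField.Ideal.tendsto_norm_le_div_atTop₀ K).comp
    (tendsto_natCast_atTop_atTop (R := ℝ))
  obtain ⟨L, hL, hlim⟩ : ∃ L : ℝ, 0 < L ∧ Filter.Tendsto (fun x : ℕ => ((Jx K x).card : ℝ) / x)
      Filter.atTop (nhds L) := by
    refine ⟨_, ?_, hlim.congr fun x => ?_⟩
    · have h1 : (0 : ℝ) < NumberField.classNumber K := by
        exact_mod_cast Nat.pos_of_ne_zero (NumberField.classNumber_ne_zero K)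
      have h2 := NumberField.Units.regulator_pos K
      have h3 : (0 : ℝ) < NumberField.Units.torsionOrder K := by
        exact_mod_cast Nat.pos_of_ne_zero (NumberField.Units.torsionOrder_ne_zero K)
      have h4 : (0 : ℝ) < |(NumberField.discr K : ℝ)| := by
        rw [abs_pos]
        exact_mod_cast NumberField.discr_ne_zero K
      positivity
    · simp only [Function.comp]
      rw [hcard]
  have h1 : ∀ᶠ x : ℕ in Filter.atTop, L / 2 < ((Jx K x).card : ℝ) / x :=
    hlim.eventually_const_lt (by linarith)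
  have h2 : ∀ᶠ x : ℕ in Filter.atTop, ((Jx K x).card : ℝ) / x < 2 * L :=
    hlim.eventually_lt_const (by linarith)
  obtain ⟨X, hX⟩ := Filter.eventually_atTop.1 (h1.and h2)
  have hmono : ∀ {x y : ℕ}, x ≤ y → (Jx K x).card ≤ (Jx K y).card := fun h =>
    card_le_card fun I hI => mem_Jx.2 ((mem_Jx.1 hI).trans h)
  have hone : ∀ x : ℕ, 1 ≤ x → 1 ≤ (Jx K x).card := by
    intro x hx
    refine card_pos.2 ⟨1, mem_Jx.2 ?_⟩
    rw [OneMemClass.coe_one, map_one]
    exact hx
  refine ⟨min (L / 2) (1 / (X + 1)), max (2 * L) ((Jx K X).card), by positivity,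
    lt_of_lt_of_le (by positivity) (le_max_left _ _), fun x => ?_⟩
  rcases Nat.eq_zero_or_pos x with rfl | hx
  · have h3 : Jx K 0 = ∅ := by
      refine eq_empty_iff_forall_notMem.2 fun I hI => ?_
      have h4 := mem_Jx.1 hI
      have h5 := one_le_absNorm I
      omega
    rw [h3]
    simp
  have hx0 : (0 : ℝ) < x := by exact_mod_cast hx
  have hx1 : (1 : ℝ) ≤ x := by exact_mod_cast hx
  rcases le_or_gt X x with hXx | hXx
  · obtain ⟨h3, h4⟩ := hX x hXx
    rw [lt_div_iff₀ hx0] at h3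
    rw [div_lt_iff₀ hx0] at h4
    exact ⟨(mul_le_mul_of_nonneg_right (min_le_left _ _) hx0.le).trans h3.le,
      h4.le.trans (mul_le_mul_of_nonneg_right (le_max_left _ _) hx0.le)⟩
  · have h3 : (x : ℝ) ≤ X + 1 := by
      have : x ≤ X + 1 := by omega
      exact_mod_cast this
    have h4 : (1 : ℝ) ≤ ((Jx K x).card : ℝ) := by exact_mod_cast hone x hx
    have h5 : ((Jx K x).card : ℝ) ≤ ((Jx K X).card : ℝ) := by exact_mod_cast hmono hXx.le
    refine ⟨?_, ?_⟩
    · refine (mul_le_mul_of_nonneg_right (min_le_right _ _) hx0.le).trans (le_trans ?_ h4)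
      rw [one_div, inv_mul_le_iff₀ (by positivity), mul_one]
      exact h3
    · refine h5.trans ?_
      refine le_trans (le_max_right (2 * L) _) ?_
      exact le_mul_of_one_le_right (le_trans (by positivity) (le_max_left _ _)) hx1

variable {K}

/-- Every nonzero ideal is a squarefree ideal times a square. -/
theorem exists_sqf (I : Ideal (𝓞 K)) : I ≠ 0 → ∃ S : Finset (PI K), ∃ E : Ideal (𝓞 K), E ≠ 0 ∧
    I = idl S * E ^ 2 := by
  refine UniqueFactorizationMonoid.induction_on_prime I (fun h => absurd rfl h) ?_ ?_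
  · intro J hJ _
    refine ⟨∅, 1, one_ne_zero, ?_⟩
    rw [Ideal.isUnit_iff] at hJ
    rw [hJ, ← Ideal.one_eq_top, one_pow, mul_one]
    unfold idl
    rw [prod_empty]
  · intro J p hJ hp ih _
    obtain ⟨S, E, hE, h⟩ := ih hJ
    by_cases hpS : (⟨p, hp⟩ : PI K) ∈ S
    · refine ⟨S.erase ⟨p, hp⟩, p * E, mul_ne_zero hp.ne_zero hE, ?_⟩
      have e : idl S = p * idl (S.erase ⟨p, hp⟩) := by
        unfold idl
        rw [← mul_prod_erase S _ hpS]
      rw [h, e]
      ring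
    · refine ⟨insert ⟨p, hp⟩ S, E, hE, ?_⟩
      have e : idl (insert ⟨p, hp⟩ S) = p * idl S := by
        unfold idl
        rw [prod_insert hpS]
      rw [h, e]
      ring

variable (K)

theorem card_Sx_le_Jx (x : ℕ) : (Sx (PI K) x).card ≤ (Jx K x).card := by
  refine card_le_card_of_injOn
    (fun S => ⟨idl S, mem_nonZeroDivisors_iff_ne_zero.2 (idl_ne_zero S)⟩) ?_ ?_
  · intro S hS
    have hS' : nm S ≤ x := mem_Sx.1 hS
    refine mem_Jx.2 ?_
    show Ideal.absNorm (idl S) ≤ x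
    rw [absNorm_idl]
    exact hS'
  · intro S _ T _ h
    exact idl_inj (Subtype.ext_iff.1 h)

theorem card_Jx_le (x : ℕ) :
    (Jx K x).card ≤ ∑ E ∈ Jx K x, (Sx (PI K) (x / Ideal.absNorm E.1 ^ 2)).card := by
  have hch : ∀ I : nonZeroDivisors (Ideal (𝓞 K)), ∃ p : (nonZeroDivisors (Ideal (𝓞 K))) ×
      Finset (PI K), I.1 = idl p.2 * p.1.1 ^ 2 := by
    intro I
    obtain ⟨S, E, hE, h⟩ := exists_sqf I.1 (mem_nonZeroDivisors_iff_ne_zero.1 I.2)
    exact ⟨⟨⟨E, mem_nonZeroDivisors_iff_ne_zero.2 hE⟩, S⟩, h⟩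
  choose f hf using hch
  rw [← card_sigma]
  refine card_le_card_of_injOn (fun I => ⟨(f I).1, (f I).2⟩) ?_ ?_
  · intro I hI
    have h1 : Ideal.absNorm I.1 ≤ x := mem_Jx.1 hI
    have h2 : Ideal.absNorm I.1 = nm (f I).2 * Ideal.absNorm (f I).1.1 ^ 2 := by
      conv_lhs => rw [hf I]
      rw [map_mul, map_pow, absNorm_idl]
    have h3 := one_le_absNorm (f I).1
    have h4 := one_le_nm (f I).2
    refine mem_coe.2 (mem_sigma.2 ⟨mem_Jx.2 ?_, mem_Sx.2 ?_⟩)
    · show Ideal.absNorm (f I).1.1 ≤ x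
      nlinarith
    · show nm (f I).2 ≤ x / Ideal.absNorm (f I).1.1 ^ 2
      rw [Nat.le_div_iff_mul_le (pow_pos h3 2), ← h2]
      exact h1
  · intro I _ J _ h
    simp only [Sigma.mk.injEq, heq_eq_eq] at h
    apply Subtype.ext
    rw [hf I, hf J, h.1, h.2]

/-- **The number of the squarefree ideals of norm at most `x` is of the exact order of `x`.** -/
theorem Sx_bounds : ∃ c C : ℝ, 0 < c ∧ 0 < C ∧ ∀ x : ℕ,
    c * x ≤ ((Sx (PI K) x).card : ℝ) ∧ ((Sx (PI K) x).card : ℝ) ≤ C * x := by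
  obtain ⟨c, C, hc, hC, hJ⟩ := Jx_bounds K
  have hup : ∀ x : ℕ, ((Sx (PI K) x).card : ℝ) ≤ C * x := fun x =>
    le_trans (by exact_mod_cast card_Sx_le_Jx K x) (hJ x).2
  have hsum := summ_dyadic (fun E : nonZeroDivisors (Ideal (𝓞 K)) => Ideal.absNorm E.1)
    one_le_absNorm hC.le (fun T x hT => by
      refine le_trans ?_ (hJ x).2
      exact_mod_cast card_le_card fun I hI => mem_Jx.2 (hT I hI))
  obtain ⟨T, hT⟩ := summable_iff_vanishing_norm.1 hsum (c / (2 * C)) (by positivity)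
  refine ⟨c / (2 * (T.card + 1)), C, by positivity, hC, fun x => ⟨?_, hup x⟩⟩
  have h1 : c * x ≤ ∑ E ∈ Jx K x, ((Sx (PI K) (x / Ideal.absNorm E.1 ^ 2)).card : ℝ) :=
    (hJ x).1.trans (by exact_mod_cast card_Jx_le K x)
  rw [← sum_filter_add_sum_filter_not (Jx K x) (fun E => E ∈ T)] at h1
  have h2 : ∑ E ∈ (Jx K x).filter (fun E => E ∈ T),
      ((Sx (PI K) (x / Ideal.absNorm E.1 ^ 2)).card : ℝ) ≤ T.card * ((Sx (PI K) x).card : ℝ) := by
    have h3 : ∀ E ∈ (Jx K x).filter (fun E => E ∈ T),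
        ((Sx (PI K) (x / Ideal.absNorm E.1 ^ 2)).card : ℝ) ≤ ((Sx (PI K) x).card : ℝ) := by
      intro E _
      exact_mod_cast card_le_card fun S hS => mem_Sx.2 ((mem_Sx.1 hS).trans (Nat.div_le_self _ _))
    refine (sum_le_card_nsmul _ _ _ h3).trans ?_
    rw [nsmul_eq_mul]
    refine mul_le_mul_of_nonneg_right ?_ (Nat.cast_nonneg _)
    exact_mod_cast card_le_card fun E hE => (mem_filter.1 hE).2
  have h4 : ∑ E ∈ (Jx K x).filter (fun E => ¬ E ∈ T),
      ((Sx (PI K) (x / Ideal.absNorm E.1 ^ 2)).card : ℝ) ≤ c / 2 * x := by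
    have h5 : ∀ E ∈ (Jx K x).filter (fun E => ¬ E ∈ T),
        ((Sx (PI K) (x / Ideal.absNorm E.1 ^ 2)).card : ℝ) ≤
        C * x * (1 / (Ideal.absNorm E.1 : ℝ) ^ 2) := by
      intro E _
      refine (hup _).trans ?_
      have h6 : ((x / Ideal.absNorm E.1 ^ 2 : ℕ) : ℝ) ≤ x / (Ideal.absNorm E.1 : ℝ) ^ 2 := by
        refine Nat.cast_div_le.trans (le_of_eq ?_)
        push_cast
        rfl
      calc C * ((x / Ideal.absNorm E.1 ^ 2 : ℕ) : ℝ) ≤ C * (x / (Ideal.absNorm E.1 : ℝ) ^ 2) :=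
            mul_le_mul_of_nonneg_left h6 hC.le
        _ = _ := by ring
    refine (sum_le_sum h5).trans ?_
    rw [← mul_sum]
    have h7 := hT ((Jx K x).filter (fun E => ¬ E ∈ T)) (by
      rw [disjoint_left]
      intro E hE
      exact (mem_filter.1 hE).2)
    have h8 := (le_abs_self _).trans (le_of_lt h7)
    refine (mul_le_mul_of_nonneg_left h8 (by positivity)).trans (le_of_eq ?_)
    field_simp
  have h9 : c / 2 * x ≤ (T.card + 1) * ((Sx (PI K) x).card : ℝ) := by
    have : (0 : ℝ) ≤ ((Sx (PI K) x).card : ℝ) := Nat.cast_nonneg _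
    nlinarith
  rw [div_mul_eq_mul_div, div_le_iff₀ (by positivity)]
  linarith

theorem PI_summable : Summable fun q : PI K => 1 / (PS.N q : ℝ) ^ 2 := by
  obtain ⟨c, C, hc, hC, h⟩ := Sx_bounds K
  refine summ_dyadic _ (fun q => (by norm_num : 1 ≤ 2).trans (PS.two_le q)) hC.le fun T x hT => ?_
  refine le_trans ?_ (h x).2
  have h1 : T.card ≤ (Sx (PI K) x).card := by
    refine card_le_card_of_injOn (fun q => {q}) (fun q hq => mem_coe.2 (mem_Sx.2 ?_)) ?_
    · show nm {q} ≤ x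
      unfold nm
      rw [prod_singleton]
      exact hT q hq
    · intro q _ q' _ hqq
      exact singleton_injective hqq
  exact_mod_cast h1

/-- The comparison for the prime ideals of a number field. -/
theorem Rk_cmpK (k : ℕ) : ∃ M : ℝ, 0 < M ∧ ∀ x y : ℕ, y ≤ x →
    x * Rk (PI K) (k + 1) y ≤ M * y * Rk (PI K) (k + 1) x := by
  obtain ⟨c, C, hc, hC, h⟩ := Sx_bounds K
  exact Rk_cmp hc hC (fun x => (h x).1) (fun x => (h x).2) (PI_summable K) k

end

end Pool.Agent.Lib.MP_1a91b9_ntRC
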