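import Pool.Agent.Lib.MP_1a91b9_ntRC.RC2

/-!
# MP_1a91b9_nt (comparison), part 3: the tuples of squarefree elements

The number `R(Z)` of the `n`-tuples of squarefree elements whose least common multiple has norm at most `Z` satisfies
`R(Z / s) ≤ (C / s) R(Z)`.
-/

set_option autoImplicit false
set_option linter.unusedSectionVars false

namespace Pool.Agent.Lib.MP_1a91b9_ntRC

open Finset Pool.Agent.Lib.MP_1a91b9_ntH NumberField

noncomputable section

section Abs

variable {ι : Type} [DecidableEq ι]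

/-- The tuples of subsets with the union `A`. -/
def tup (n : ℕ) (A : Finset ι) : Finset (Fin n → Finset ι) :=
  (Fintype.piFinset fun _ => A.powerset).filter fun b => univ.biUnion b = A

theorem mem_tup {n : ℕ} {A : Finset ι} {b : Fin n → Finset ι} :
    b ∈ tup n A ↔ univ.biUnion b = A := by
  unfold tup
  rw [mem_filter, Fintype.mem_piFinset]
  refine ⟨fun h => h.2, fun h => ⟨fun i => mem_powerset.2 ?_, h⟩⟩
  rw [← h]
  exact subset_biUnion_of_mem b (mem_univ i)

theorem sum_tup (n : ℕ) (A : Finset ι) :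
    ∑ B ∈ A.powerset, (tup n B).card = (2 ^ n) ^ A.card := by
  have h1 : (Fintype.piFinset fun _ : Fin n => A.powerset).card = (2 ^ n) ^ A.card := by
    rw [Fintype.card_piFinset, prod_const, card_powerset, card_univ, Fintype.card_fin, ← pow_mul,
      ← pow_mul, mul_comm]
  rw [← h1, card_eq_sum_card_fiberwise (f := fun b => univ.biUnion b) (t := A.powerset)]
  · refine sum_congr rfl fun B hB => ?_
    congr 1
    ext b
    rw [mem_tup, mem_filter, Fintype.mem_piFinset]
    refine ⟨fun h => ⟨fun i => mem_powerset.2 ?_, h⟩, fun h => h.2⟩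
    refine subset_trans ?_ (mem_powerset.1 hB)
    rw [← h]
    exact subset_biUnion_of_mem b (mem_univ i)
  · intro b hb
    rw [mem_coe, Fintype.mem_piFinset] at hb
    rw [mem_coe, mem_powerset]
    exact biUnion_subset.2 fun i _ => mem_powerset.1 (hb i)

theorem card_tup {n : ℕ} (A : Finset ι) : (tup n A).card = (2 ^ n - 1) ^ A.card := by
  induction A using Finset.strongInduction with
  | H A ih =>
    have h1 := sum_tup n A
    have h2 : ∑ B ∈ A.powerset, (2 ^ n - 1) ^ B.card = (2 ^ n) ^ A.card := by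
      have h := Finset.sum_pow_mul_eq_add_pow (2 ^ n - 1) 1 A
      rw [Nat.sub_add_cancel (Nat.one_le_two_pow)] at h
      rw [← h]
      refine sum_congr rfl fun d _ => ?_
      rw [one_pow, mul_one]
    have hA : A ∈ A.powerset := mem_powerset_self A
    rw [← add_sum_erase _ _ hA] at h1 h2
    have h3 : ∑ B ∈ A.powerset.erase A, (tup n B).card =
        ∑ B ∈ A.powerset.erase A, (2 ^ n - 1) ^ B.card := by
      refine sum_congr rfl fun B hB => ih B ?_
      rw [mem_erase, mem_powerset] at hB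
      exact hB.2.ssubset_of_ne hB.1
    omega

variable [PS ι]

/-- The tuples of squarefree integers whose least common multiple has norm at most `x`. -/
def TT (ι : Type) [DecidableEq ι] [PS ι] (n x : ℕ) : Finset (Fin n → Finset ι) :=
  (Sx ι x).biUnion fun A => tup n A

theorem mem_TT {n x : ℕ} {b : Fin n → Finset ι} : b ∈ TT ι n x ↔ nm (univ.biUnion b) ≤ x := by
  unfold TT
  rw [mem_biUnion]
  constructor
  · rintro ⟨A, hA, hb⟩
    rw [mem_tup.1 hb]
    exact mem_Sx.1 hA
  · exact fun h => ⟨_, mem_Sx.2 h, mem_tup.2 rfl⟩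

theorem card_TT (n x : ℕ) : ((TT ι n x).card : ℝ) = Rk ι (2 ^ n - 1) x := by
  unfold TT Rk
  rw [card_biUnion]
  · push_cast
    refine sum_congr rfl fun A _ => ?_
    rw [card_tup]
    push_cast
    rfl
  · intro A _ B _ hAB
    show Disjoint (tup n A) (tup n B)
    rw [disjoint_left]
    intro b h1 h2
    exact hAB ((mem_tup.1 h1).symm.trans (mem_tup.1 h2))

end Abs

variable {K : Type} [Field K] [NumberField K] [IsPrincipalIdealRing (𝓞 K)]

/-- A generator of the ideal of a finite set of primes. -/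
def gS (S : Finset (PI K)) : 𝓞 K := Submodule.IsPrincipal.generator (idl S)

theorem span_gS (S : Finset (PI K)) : Ideal.span {gS S} = idl S :=
  Ideal.span_singleton_generator _

theorem gS_ne_zero (S : Finset (PI K)) : gS S ≠ 0 := by
  intro h
  have h1 := span_gS S
  rw [h] at h1
  refine idl_ne_zero S ?_
  rw [← h1, Ideal.span_singleton_eq_bot.2 rfl]
  rfl

theorem norm_gS (S : Finset (PI K)) : |Algebra.norm ℤ (gS S)| = (nm S : ℤ) := by
  rw [← absNorm_idl, ← span_gS, Ideal.absNorm_span_singleton, Int.natCast_natAbs]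

theorem gS_dvd {S T : Finset (PI K)} (h : S ⊆ T) : gS S ∣ gS T := by
  rw [← Ideal.span_singleton_le_span_singleton, span_gS, span_gS, ← Ideal.dvd_iff_le]
  exact prod_dvd_prod_of_subset _ _ _ h

theorem idl_dvd {S : Finset (PI K)} {I : Ideal (𝓞 K)} (h : ∀ p ∈ S, p.1 ∣ I) : idl S ∣ I := by
  induction S using Finset.induction_on with
  | empty =>
    unfold idl
    rw [prod_empty]
    exact one_dvd _
  | insert p S hp ih =>
    obtain ⟨J, hJ⟩ := ih fun q hq => h q (mem_insert_of_mem hq)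
    have h1 : p.1 ∣ idl S * J := hJ ▸ h p (mem_insert_self p S)
    have h2 : p.1 ∣ J := (p.2.dvd_or_dvd h1).resolve_left fun h3 => hp (dvd_idl.1 h3)
    have h4 : idl (insert p S) = idl S * p.1 := by
      unfold idl
      rw [prod_insert hp, mul_comm]
    rw [h4, hJ]
    exact mul_dvd_mul_left _ h2

theorem idl_erase {p : PI K} {S : Finset (PI K)} (h : p ∈ S) :
    idl S = p.1 * idl (S.erase p) := by
  unfold idl
  rw [← mul_prod_erase S _ h]

theorem not_sq_dvd_idl (p : PI K) (S : Finset (PI K)) : ¬ p.1 * p.1 ∣ idl S := by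
  intro h1
  have h2 : p ∈ S := dvd_idl.1 (dvd_trans (dvd_mul_right p.1 p.1) h1)
  rw [idl_erase h2] at h1
  have h3 : p.1 ∣ idl (S.erase p) := (mul_dvd_mul_iff_left p.2.ne_zero).1 h1
  exact notMem_erase p S (dvd_idl.1 h3)

theorem idl_squarefree (S : Finset (PI K)) (x : Ideal (𝓞 K)) (hx : x * x ∣ idl S) : x = ⊤ := by
  by_contra hu
  obtain ⟨P, hP, hxP⟩ := Ideal.exists_le_maximal x hu
  have hP0 : P ≠ ⊥ := by
    rintro rfl
    have h1 : x = ⊥ := le_bot_iff.1 hxP
    rw [h1] at hx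
    refine idl_ne_zero S ?_
    rw [← Ideal.zero_eq_bot, mul_zero, zero_dvd_iff] at hx
    exact hx
  have hP' : Prime P := Ideal.prime_of_isPrime hP0 hP.isPrime
  have h2 : P ∣ x := Ideal.dvd_iff_le.2 hxP
  exact not_sq_dvd_idl ⟨P, hP'⟩ S (dvd_trans (mul_dvd_mul h2 h2) hx)

theorem gS_squarefree (S : Finset (PI K)) : Squarefree (gS S) := by
  intro x hx
  have h1 : Ideal.span {x} * Ideal.span {x} ∣ idl S := by
    rw [Ideal.span_singleton_mul_span_singleton, ← span_gS, Ideal.dvd_iff_le,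
      Ideal.span_singleton_le_span_singleton]
    exact hx
  exact Ideal.span_singleton_eq_top.1 (idl_squarefree S _ h1)

/-- A squarefree element generates the ideal of a finite set of primes. -/
theorem exists_S {b : 𝓞 K} (hb : Squarefree b) : ∃ S : Finset (PI K), Ideal.span {b} = idl S := by
  have hb0 : (Ideal.span {b} : Ideal (𝓞 K)) ≠ 0 := by
    rw [Ideal.zero_eq_bot, Ne, Ideal.span_singleton_eq_bot]
    exact hb.ne_zero
  obtain ⟨S, E, hE, h⟩ := exists_sqf (Ideal.span {b}) hb0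
  refine ⟨S, ?_⟩
  obtain ⟨e, he⟩ : ∃ e, E = Ideal.span {e} :=
    ⟨Submodule.IsPrincipal.generator E, (Ideal.span_singleton_generator E).symm⟩
  have h1 : E ^ 2 ∣ Ideal.span {b} := h ▸ dvd_mul_left _ _
  rw [he, Ideal.span_singleton_pow, Ideal.dvd_iff_le, Ideal.span_singleton_le_span_singleton,
    pow_two] at h1
  have h2 := hb e h1
  rw [h, he, Ideal.span_singleton_eq_top.2 h2, ← Ideal.one_eq_top, one_pow, mul_one]

/-- The tuples of squarefree elements whose least common multiple has norm at most `Z`. -/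
def Tp (K : Type) [Field K] [NumberField K] (n : ℕ) (Z : ℝ) : Set (Fin n → 𝓞 K) :=
  {b | (∀ i, Squarefree (b i)) ∧ ∃ A : 𝓞 K, Squarefree A ∧ ((|Algebra.norm ℤ A| : ℤ) : ℝ) ≤ Z ∧
    ∀ i, b i ∣ A}

theorem Tp_one {n : ℕ} {Z : ℝ} {b : Fin n → 𝓞 K} {S : Fin n → Finset (PI K)}
    (hS : ∀ i, Ideal.span {b i} = idl (S i)) {A : 𝓞 K} (hA : A ≠ 0)
    (hZ : ((|Algebra.norm ℤ A| : ℤ) : ℝ) ≤ Z) (hd : ∀ i, b i ∣ A) :
    (nm (univ.biUnion S) : ℝ) ≤ Z := by
  refine le_trans ?_ hZ
  have h2 : idl (univ.biUnion S) ∣ Ideal.span {A} := by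
    refine idl_dvd fun p hp => ?_
    obtain ⟨i, -, hi⟩ := mem_biUnion.1 hp
    refine (dvd_idl.2 hi).trans ?_
    rw [← hS i, Ideal.dvd_iff_le, Ideal.span_singleton_le_span_singleton]
    exact hd i
  have h3 : Ideal.absNorm (idl (univ.biUnion S)) ∣ Ideal.absNorm (Ideal.span {A}) :=
    map_dvd Ideal.absNorm h2
  have h0 : Ideal.absNorm (Ideal.span {A}) ≠ 0 :=
    Ideal.absNorm_ne_zero_iff_mem_nonZeroDivisors.2 (mem_nonZeroDivisors_iff_ne_zero.2 (by
      rw [Ideal.zero_eq_bot, Ne, Ideal.span_singleton_eq_bot]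
      exact hA))
  have h4 := Nat.le_of_dvd (Nat.pos_of_ne_zero h0) h3
  rw [absNorm_idl, Ideal.absNorm_span_singleton] at h4
  rw [← Int.natCast_natAbs]
  exact_mod_cast h4

theorem Tp_two {n : ℕ} {Z : ℝ} {b : Fin n → 𝓞 K} {S : Fin n → Finset (PI K)}
    (hS : ∀ i, Ideal.span {b i} = idl (S i)) (h : (nm (univ.biUnion S) : ℝ) ≤ Z) :
    ∃ A : 𝓞 K, Squarefree A ∧ ((|Algebra.norm ℤ A| : ℤ) : ℝ) ≤ Z ∧ ∀ i, b i ∣ A := by
  refine ⟨gS (univ.biUnion S), gS_squarefree _, ?_, fun i => ?_⟩
  · rw [norm_gS]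
    exact_mod_cast h
  · rw [← Ideal.span_singleton_le_span_singleton, span_gS, hS, ← Ideal.dvd_iff_le]
    exact prod_dvd_prod_of_subset _ _ _ (subset_biUnion_of_mem S (mem_univ i))

end

end Pool.Agent.Lib.MP_1a91b9_ntRC
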